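import Pool.Agent.Work.MP_dcf6a6_c1_helper73.ALL
import Pool.Agent.Work.MP_dcf6a6_tv_helper73.ALL

/-!
# Rational connectedness of the smooth locus of log Fano varieties with a torus action of
# complexity one

The definitions are in `Pool/Agent/Work/MP_dcf6a6_c1/Defs.lean`,
`Pool/Agent/Work/MP_dcf6a6_mg/Defs.lean` (`SectionRing`) and
`Pool/Agent/Work/MP_dcf6a6_tv/Defs.lean` (`structMap`, `IsSmoothPt`, `lineGr`).
-/

open CategoryTheory AlgebraicGeometry Pool.TVar

namespace Pool.Agent.Results.MP_dcf6a6_ag.ComplexityOne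

/-- Let `R` be a domain, graded by the abelian group `H`, with a presentation
`ℂ[T_j, S_k] / (trinomials in the monomials T_b = ∏_{bl j = b} T_j ^ l_j)` as in `TriData`
(platonic exponents), let `L` be in the relative interior of the moving cone and `X = Proj 𝒜`, where
`𝒜` is the section ring `⨁_n R_{n L}`. There is a dense open set `U` of smooth points of `X` such
that any two closed points of `U` lie on the image of a nonconstant morphism from the projective line
to `X` whose image consists of smooth points of `X`. -/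
theorem result {J K B H : Type} [Fintype J] [Fintype K] [Fintype B]
    [DecidableEq J] [DecidableEq K] [DecidableEq B] [AddCommGroup H] [DecidableEq H]
    (D : Pool.C1.TriData J K B H)
    {R : Type} [CommRing R] [IsDomain R] [Algebra ℂ R] (ℛ : H → Submodule ℂ R) [GradedAlgebra ℛ]
    (pr : D.Pres R ℛ) (L : H) (hL : D.MovingInterior L)
    {A : Type} [CommRing A] [Algebra ℂ A] (𝒜 : ℕ → Submodule ℂ A) [GradedAlgebra 𝒜]
    (sr : SectionRing ℛ L A 𝒜) :
    ∃ U : (Proj 𝒜).Opens, Dense (U : Set (Proj 𝒜)) ∧ (∀ x ∈ U, IsSmoothPt (structMap 𝒜) x) ∧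
      ∀ x y : Proj 𝒜, x ∈ U → y ∈ U → IsClosed ({x} : Set (Proj 𝒜)) →
        IsClosed ({y} : Set (Proj 𝒜)) →
        ∃ f : Proj lineGr ⟶ Proj 𝒜, f ≫ structMap 𝒜 = structMap lineGr ∧
          (∀ q, IsSmoothPt (structMap 𝒜) (f q)) ∧ (∃ q q', f q ≠ f q') ∧
          x ∈ Set.range f ∧ y ∈ Set.range f :=
  Pool.C1.main
    Pool.TVar.helper76.stmt_LOC
    Pool.TVar.helper87.stmt_PMAP
    Pool.TVar.helper22.stmt_P1
    Pool.TVar.helper45.stmt_DENS
    (Pool.C1.helper70.stmt_FSG Pool.C1.helper52.stmt_LINB)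
    Pool.C1.helper93.stmt_NZG
    (Pool.C1.helper31.stmt_PTC Pool.C1.helper52.stmt_LINB)
    Pool.C1.helper29.stmt_PHIG
    Pool.C1.helper73.all_CORE
    pr hL sr

end Pool.Agent.Results.MP_dcf6a6_ag.ComplexityOne
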