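import Pool.Agent.Work.MP_dcf6a6_gq.All

/-!
# Rational connectedness of the smooth locus of GIT quotients

The definitions are in `Pool/Agent/Work/MP_dcf6a6_gq/Defs.lean` and
`Pool/Agent/Work/MP_dcf6a6_tv/Defs.lean` (`structMap`, `IsSmoothPt`, `lineGr`).
-/

open CategoryTheory AlgebraicGeometry Pool.TVar Pool.GQ

namespace Pool.Agent.Results.MP_dcf6a6_ag.GITQuotients

/-- Let `A` be a finitely generated graded domain over `ℂ` with `dim 𝒜 n ≥ 2` for some `n`, and let
`X = Proj 𝒜`.  There is a dense open set `U` of smooth points of `X` such that any two closed points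
of `U` lie on the image of a nonconstant morphism from the projective line to `X` whose image
consists of smooth points of `X`, in the following cases.

(1) `A` is normal and has a graded embedding in a polynomial ring (graded by positive weights) which
contracts no divisor.

(2) `A` is the ring of invariants of a group `G` which acts on a polynomial ring (graded by positive
weights) by graded automorphisms, and the balance condition for the semi-invariants holds. -/
theorem result :
    (∀ (V : Type) [Fintype V] (w : V → ℕ) (A : Type) [CommRing A] [IsDomain A]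
      [IsIntegrallyClosed A] [Algebra ℂ A] (𝒜 : ℕ → Submodule ℂ A) [GradedAlgebra 𝒜]
      (E : GradedEmbedding w 𝒜), Algebra.FiniteType ℂ A → E.NoContraction →
      (∃ n, ∃ a ∈ 𝒜 n, ∃ b ∈ 𝒜 n, LinearIndependent ℂ ![a, b]) → Concl 𝒜) ∧
    (∀ (V : Type) [Fintype V] (w : V → ℕ) (G : Type) [Group G]
      (ρ : G →* (MvPolynomial V ℂ ≃ₐ[ℂ] MvPolynomial V ℂ)), Balanced w ρ →
      ∀ (A : Type) [CommRing A] [IsDomain A] [Algebra ℂ A] (𝒜 : ℕ → Submodule ℂ A)
      [GradedAlgebra 𝒜], InvariantRing w ρ 𝒜 → Algebra.FiniteType ℂ A →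
      (∃ n, ∃ a ∈ 𝒜 n, ∃ b ∈ 𝒜 n, LinearIndependent ℂ ![a, b]) → Concl 𝒜) :=
  ⟨Pool.GQ.all_MN1, Pool.GQ.all_MN2⟩

end Pool.Agent.Results.MP_dcf6a6_ag.GITQuotients
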