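import Pool.Agent.Work.MP_dcf6a6_mg.Fin
import Pool.Agent.Work.MP_dcf6a6_tv_helper73.ALL

/-!
# Rational connectedness of the smooth locus of varieties with split Cox ring

The definitions are in `Pool/Agent/Work/MP_dcf6a6_tv/Defs.lean` and
`Pool/Agent/Work/MP_dcf6a6_mg/Defs.lean`.
-/

open CategoryTheory AlgebraicGeometry Pool.TVar

namespace Pool.Agent.Results.MP_dcf6a6_ag.SplitCoxRing

/-- Let `R` be a domain, graded by the abelian group `H`, with a presentation
`ℂ[T_j, S_k] / (∏_{ja j = a} T_j = ∏_{ba b = a} P_b(S) ^ m_b, a : I)` as in `CoxData`, let `L` be in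
the relative interior of the moving cone and `X = Proj 𝒜`, where `𝒜` is the section ring
`⨁_n R_{n L}`. There is a dense open set `U` of smooth points of `X` such that any two closed points
of `U` lie on the image of a nonconstant morphism from the projective line to `X` whose image
consists of smooth points of `X`. -/
theorem result {J K I B H : Type} [Fintype J] [Fintype K] [Fintype B]
    [DecidableEq J] [DecidableEq K] [DecidableEq I] [AddCommGroup H] [DecidableEq H]
    (D : CoxData J K I B H)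
    {R : Type} [CommRing R] [IsDomain R] [Algebra ℂ R] (ℛ : H → Submodule ℂ R) [GradedAlgebra ℛ]
    (pr : D.Pres R ℛ) (L : H) (hL : D.MovingInterior L)
    {A : Type} [CommRing A] [Algebra ℂ A] (𝒜 : ℕ → Submodule ℂ A) [GradedAlgebra 𝒜]
    (sr : SectionRing ℛ L A 𝒜) :
    ∃ U : (Proj 𝒜).Opens, Dense (U : Set (Proj 𝒜)) ∧ (∀ x ∈ U, IsSmoothPt (structMap 𝒜) x) ∧
      ∀ x y : Proj 𝒜, x ∈ U → y ∈ U → IsClosed ({x} : Set (Proj 𝒜)) →
        IsClosed ({y} : Set (Proj 𝒜)) →
        ∃ f : Proj lineGr ⟶ Proj 𝒜, f ≫ structMap 𝒜 = structMap lineGr ∧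
          (∀ q, IsSmoothPt (structMap 𝒜) (f q)) ∧ (∃ q q', f q ≠ f q') ∧
          x ∈ Set.range f ∧ y ∈ Set.range f :=
  Pool.TVar.MG.main
    Pool.TVar.helper76.stmt_LOC
    Pool.TVar.helper87.stmt_PMAP
    (Pool.TVar.helper30.stmt_CORE
      (Pool.TVar.helper74.stmt_BASE
        (Pool.TVar.helper39.stmt_ZED Pool.TVar.helper54.stmt_DEG
          (Pool.TVar.helper30.stmt_SQF Pool.TVar.helper54.stmt_DEG))
        Pool.TVar.helper54.stmt_QJ)
      Pool.TVar.helper74.stmt_CYC Pool.TVar.helper83.stmt_RHO Pool.TVar.helper54.stmt_HERM)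
    (Pool.TVar.helper33.stmt_PHI Pool.TVar.helper33.stmt_HOMG)
    Pool.TVar.helper22.stmt_P1
    Pool.TVar.helper83.stmt_NZ
    Pool.TVar.helper45.stmt_DENS
    pr hL sr

end Pool.Agent.Results.MP_dcf6a6_ag.SplitCoxRing
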