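import Pool.Agent.Work.MP_dcf6a6_wh.All

/-!
# Rational connectedness of the smooth locus of general weighted hypersurfaces

The definitions are in `Pool/Agent/Work/MP_dcf6a6_wh/Defs.lean` (`HypData`, `form`, `Pres`),
`Pool/Agent/Work/MP_dcf6a6_gq/Defs.lean` (`Concl`) and `Pool/Agent/Work/MP_dcf6a6_tv/Defs.lean`
(`structMap`, `IsSmoothPt`, `lineGr`).
-/

open CategoryTheory AlgebraicGeometry Pool.WH

namespace Pool.Agent.Results.MP_dcf6a6_ag.WeightedHypersurfaces

/-- Let `w v > 0` be weights on a finite set `V`, let `I` be a nonempty set of variables the product of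
which has degree `d`, let `x ^ b` be a monomial of degree `d` in the other variables, and suppose that
all but one of the weights, and also all but the weights of one variable of `I` and of one variable of
`x ^ b`, have greatest common divisor one (`HypData`).  Let `M` be a finite set of monomials of degree `d`
which contains `∏_{v ∈ I} x_v` and `x ^ b`.  Then there is a nonzero polynomial `H` in the coefficients
such that for all `y` with `H y ≠ 0` the polynomial `F = form M y = ∑_{μ ∈ M} y μ * x ^ μ` is prime, and
the hypersurface `X = Proj ℂ[x] / (F)` in `ℙ(w)` has a dense open set `U` of smooth points such that any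
two closed points of `U` lie on the image of a nonconstant morphism from the projective line to `X`
whose image consists of smooth points of `X`. -/
theorem result :
    ∀ (V : Type) [Fintype V] [DecidableEq V] (w : V → ℕ) (d : ℕ) (I : Finset V) (b : V →₀ ℕ)
      (M : Finset (V →₀ ℕ)), HypData w d I b → (∀ μ ∈ M, ∑ v, μ v * w v = d) →
      ∑ v ∈ I, Finsupp.single v 1 ∈ M → b ∈ M →
      ∃ H : MvPolynomial M ℂ, H ≠ 0 ∧ ∀ y : M → ℂ, MvPolynomial.eval y H ≠ 0 →
        Prime (form M y) ∧
        ∀ (A : Type) [CommRing A] [Algebra ℂ A] (𝒜 : ℕ → Submodule ℂ A) [GradedAlgebra 𝒜],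
          Pres w (form M y) 𝒜 → Pool.GQ.Concl 𝒜 :=
  Pool.WH.all_MA2

end Pool.Agent.Results.MP_dcf6a6_ag.WeightedHypersurfaces
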